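import Pool.Agent.X53.CycB

/-!
# Binary matroids without `M(K_5)*`-restricted minors whose cycle ideals need generators of
arbitrarily large degree

Let `M` be the dual of the matroid of all points of the binary projective geometry `PG(r-1, 2)`
except one point `p`, where `r ≥ 3`.  The cycles of `M` are the sets
`D_y = {x : y · x = 1}` (`y ∈ GF(2)^r`), and by Fourier inversion on `GF(2)^r` the only affine
relation between their incidence vectors is `∑ (-1)^(y·p) D_y = 0`.  So the cycle ideal has no
nonzero element of degree less than `2^(r-1)`, but it contains the binomial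
`∏_{y·p=0} x_{D_y} - ∏_{y·p=1} x_{D_y}`.  On the other hand `M` has no `M(K_5)*`-restricted minor:
the elements of the dual of any restricted minor of `M` represent all nonzero vectors, except
at most one, of the space in which it is represented, and `M(K_5)` represents only 10 of the 15
nonzero vectors of its span.
-/

set_option autoImplicit false

namespace Pool.Agent.Results.MP_1f7bca_co.UnboundedDegree

open Set MvPolynomial Pool.Agent.Helper236 Pool.Agent.X53.Cyc

universe u

/-! ### Definitions -/

/-- `M` is connected: any two distinct elements lie in a common circuit. -/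
def IsConnected {α : Type} (M : Matroid α) : Prop :=
  ∀ e ∈ M.E, ∀ f ∈ M.E, e ≠ f → ∃ C, M.IsCircuit C ∧ e ∈ C ∧ f ∈ C

/-- `D` is a cycle of `M`: a (possibly empty) disjoint union of circuits. -/
def IsCycle {α : Type} (M : Matroid α) (D : Set α) : Prop :=
  ∃ S : Set (Set α), (∀ C ∈ S, M.IsCircuit C) ∧ S.PairwiseDisjoint id ∧ D = ⋃₀ S

/-- The cycle ideal of `M` over the field `K`: the kernel of the `K`-algebra map from the
polynomial ring with one variable for each cycle of `M` to `K[s, t_e]` (`s` is the variable `none`,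
`t_e` the variable `some e`) which sends the variable of the cycle `D` to `s ∏_{e ∈ D} t_e`. -/
noncomputable def cycleIdeal {α : Type} (K : Type u) [Field K] (M : Matroid α) :
    Ideal (MvPolynomial {D : Set α // IsCycle M D} K) :=
  RingHom.ker (aeval (fun D : {D : Set α // IsCycle M D} =>
    (X none * ∏ᶠ e ∈ D.1, X (some e) : MvPolynomial (Option α) K))).toRingHom

/-- `N` is obtained from `M` by a finite sequence of deletions, series contractions (contractions
of an element of a cocircuit with two elements) and contractions of coloops. -/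
inductive IsRestrictedMinor {α : Type} (M : Matroid α) : Matroid α → Prop
  | refl : IsRestrictedMinor M M
  | delete {N : Matroid α} (e : α) : IsRestrictedMinor M N → e ∈ N.E →
      IsRestrictedMinor M (N.delete {e})
  | seriesContract {N : Matroid α} (e f : α) : IsRestrictedMinor M N → e ≠ f →
      N.IsCocircuit {e, f} → IsRestrictedMinor M (N.contract {e})
  | coloopContract {N : Matroid α} (e : α) : IsRestrictedMinor M N → N.IsColoop e →
      IsRestrictedMinor M (N.contract {e})

/-- `M` has an `M(K_5)*`-restricted minor. -/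
def HasK5DualRestrictedMinor {α : Type} (M : Matroid α) : Prop :=
  ∃ N : Matroid α, IsRestrictedMinor M N ∧
    ∃ K : Matroid (Sym2 (Fin 5)), IsCompleteGraphMatroid 5 K ∧ Iso N K✶

/-! ### The cycles -/

variable {r : ℕ}

theorem isCycle_iff (hr : 3 ≤ r) (p : V r) (D : Set (V r)) :
    IsCycle (PGp p)✶ D ↔ ∃ y, D = Dset p y := by
  constructor
  · rintro ⟨S, hS, hdis, rfl⟩
    by_cases hne : S.Nonempty
    · obtain ⟨C, hC⟩ := hne
      obtain ⟨y, hy, rfl⟩ := (isCircuit_iff hr p C).1 (hS C hC)
      refine ⟨y, ?_⟩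
      have hall : ∀ C' ∈ S, C' = Dset p y := by
        intro C' hC'
        obtain ⟨z, hz, rfl⟩ := (isCircuit_iff hr p C').1 (hS _ hC')
        by_contra hne
        have h1 := hdis hC' hC hne
        have h2 := Dset_inter hr p z y hz hy
        rw [Function.onFun, id, id, Set.disjoint_iff_inter_eq_empty] at h1
        rw [h1] at h2
        exact Set.not_nonempty_empty h2
      apply Set.Subset.antisymm
      · apply Set.sUnion_subset
        intro C' hC'
        rw [hall C' hC']
      · exact Set.subset_sUnion_of_mem hC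
    · rw [Set.not_nonempty_iff_eq_empty] at hne
      refine ⟨0, ?_⟩
      rw [hne, Set.sUnion_empty, Dset_zero]
  · rintro ⟨y, rfl⟩
    by_cases hy : y = 0
    · subst hy
      exact ⟨∅, by simp, by simp, by rw [Dset_zero, Set.sUnion_empty]⟩
    · refine ⟨{Dset p y}, ?_, by simp, by simp⟩
      intro C hC
      rw [Set.mem_singleton_iff] at hC
      exact (isCircuit_iff hr p C).2 ⟨y, hy, hC⟩

theorem Dset_injective (hr : 3 ≤ r) (p : V r) : Function.Injective (Dset p) := by
  intro y z h
  by_cases hy : y = 0
  · subst hy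
    by_contra hz
    have h1 := Dset_nonempty hr p z (fun h0 => hz h0.symm)
    rw [← h, Dset_zero] at h1
    exact Set.not_nonempty_empty h1
  · exact Dset_subset_iff hr p y z hy h.le

/-- the cycles are labelled by the vectors -/
noncomputable def cyc (hr : 3 ≤ r) (p : V r) : V r ≃ {D : Set (V r) // IsCycle (PGp p)✶ D} :=
  Equiv.ofBijective (fun y => ⟨Dset p y, (isCycle_iff hr p _).2 ⟨y, rfl⟩⟩) (by
    constructor
    · intro y z h
      exact Dset_injective hr p (Subtype.ext_iff.1 h)
    · rintro ⟨D, hD⟩
      obtain ⟨y, rfl⟩ := (isCycle_iff hr p D).1 hD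
      exact ⟨y, rfl⟩)

/-! ### The toric map on monomials -/

open Classical in
/-- the exponent of the image of a variable -/
noncomputable def psi (D : Set (V r)) : Option (V r) →₀ ℕ :=
  Finsupp.single none 1 + ∑ e ∈ D.toFinite.toFinset, Finsupp.single (some e) 1

open Classical in
theorem image_var (K : Type u) [Field K] (D : Set (V r)) :
    (X none * ∏ᶠ e ∈ D, X (some e) : MvPolynomial (Option (V r)) K) = monomial (psi D) 1 := by
  rw [finprod_mem_eq_finite_toFinset_prod _ D.toFinite, psi]
  have h1 : (∏ i ∈ D.toFinite.toFinset, X (some i) : MvPolynomial (Option (V r)) K)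
      = monomial (∑ e ∈ D.toFinite.toFinset, Finsupp.single (some e) 1) 1 := by
    rw [monomial_sum_one]
    rfl
  rw [h1, X, monomial_mul, one_mul]

open Classical in
theorem psi_none (D : Set (V r)) : psi D none = 1 := by
  rw [psi, Finsupp.add_apply, Finsupp.single_eq_same, Finsupp.finsetSum_apply]
  rw [Finset.sum_eq_zero fun e _ => Finsupp.single_eq_of_ne (by simp), add_zero]

open Classical in
theorem psi_some (D : Set (V r)) (e : V r) : psi D (some e) = if e ∈ D then 1 else 0 := by
  rw [psi, Finsupp.add_apply, Finsupp.single_eq_of_ne (by simp), Finsupp.finsetSum_apply,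
    zero_add]
  split_ifs with h
  · rw [Finset.sum_eq_single e]
    · simp
    · intro b _ hb
      exact Finsupp.single_eq_of_ne (by simpa using fun h => hb h.symm)
    · intro h'
      exact absurd ((Set.Finite.mem_toFinset _).2 h) h'
  · rw [Finset.sum_eq_zero]
    intro b hb
    refine Finsupp.single_eq_of_ne ?_
    intro h'
    rw [Option.some_inj] at h'
    rw [h'] at h
    exact h ((Set.Finite.mem_toFinset _).1 hb)

variable {ι : Type*}

/-- the exponent of the image of a monomial -/
noncomputable def phi (g : ι → Set (V r)) (w : ι →₀ ℕ) : Option (V r) →₀ ℕ :=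
  w.sum fun D k => k • psi (g D)

theorem aeval_mono (K : Type u) [Field K] (g : ι → Set (V r)) (w : ι →₀ ℕ) (c : K) :
    aeval (fun D : ι => (X none * ∏ᶠ e ∈ g D, X (some e) : MvPolynomial (Option (V r)) K))
      (monomial w c) = monomial (phi g w) c := by
  rw [aeval_monomial, phi, ← mul_one c, monomial_finsupp_sum_index]
  rw [mul_one]
  congr 1
  refine Finsupp.prod_congr fun D _ => ?_
  rw [image_var, monomial_pow, one_pow]

theorem coeff_aeval (K : Type u) [Field K] (g : ι → Set (V r)) (f : MvPolynomial ι K)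
    (w : ι →₀ ℕ) (hinj : ∀ w' ∈ f.support, phi g w' = phi g w → w' = w) :
    coeff (phi g w) (aeval (fun D : ι => (X none * ∏ᶠ e ∈ g D, X (some e) :
      MvPolynomial (Option (V r)) K)) f) = coeff w f := by
  classical
  conv_lhs => rw [f.as_sum]
  rw [map_sum, coeff_sum]
  have h : ∀ w' ∈ f.support, coeff (phi g w) (aeval (fun D : ι =>
      (X none * ∏ᶠ e ∈ g D, X (some e) : MvPolynomial (Option (V r)) K))
      (monomial w' (coeff w' f))) = if w' = w then coeff w f else 0 := by
    intro w' hw'
    rw [aeval_mono, coeff_monomial]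
    by_cases h : w' = w
    · rw [if_pos h, h, if_pos rfl]
    · rw [if_neg h, if_neg (fun h' => h (hinj w' hw' h'))]
  rw [Finset.sum_congr rfl h, Finset.sum_ite_eq' f.support w]
  split_ifs with h'
  · rfl
  · rw [notMem_support_iff] at h'
    exact h'.symm

theorem phi_none [Fintype ι] (g : ι → Set (V r)) (w : ι →₀ ℕ) : phi g w none = ∑ D, w D := by
  rw [phi, Finsupp.sum_fintype _ _ (by simp), Finsupp.finsetSum_apply]
  refine Finset.sum_congr rfl fun D _ => ?_
  rw [Finsupp.smul_apply, psi_none, smul_eq_mul, mul_one]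

open Classical in
theorem phi_some [Fintype ι] (g : ι → Set (V r)) (w : ι →₀ ℕ) (e : V r) :
    phi g w (some e) = ∑ D ∈ Finset.univ.filter (fun D => e ∈ g D), w D := by
  rw [phi, Finsupp.sum_fintype _ _ (by simp), Finsupp.finsetSum_apply, Finset.sum_filter]
  refine Finset.sum_congr rfl fun D _ => ?_
  rw [Finsupp.smul_apply, psi_some, smul_eq_mul]
  split_ifs <;> simp

/-! ### The cycle ideal of the example -/

theorem phi_inj (hr : 3 ≤ r + 1) (p : V (r + 1)) (hp : p ≠ 0)
    (w w' : {D : Set (V (r + 1)) // IsCycle (PGp p)✶ D} →₀ ℕ)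
    (h : phi (fun D => D.1) w = phi (fun D => D.1) w')
    (hw : (w.sum fun _ k => k) < 2 ^ r) : w = w' := by
  classical
  let _ : Fintype {D : Set (V (r + 1)) // IsCycle (PGp p)✶ D} := Fintype.ofEquiv _ (cyc hr p)
  have hval : ∀ y, ((cyc hr p) y).1 = Dset p y := fun y => rfl
  have key : (fun y => w (cyc hr p y)) = fun y => w' (cyc hr p y) := by
    apply inj hp
    · rw [Equiv.sum_comp (cyc hr p) w, Equiv.sum_comp (cyc hr p) w', ← phi_none (fun D => D.1),
        ← phi_none (fun D => D.1), h]
    · intro x hx0 hxp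
      have h2 : ∀ v : {D : Set (V (r + 1)) // IsCycle (PGp p)✶ D} →₀ ℕ,
          ∑ y ∈ Finset.univ.filter (fun y => dp y x = 1), v (cyc hr p y)
            = phi (fun D => D.1) v (some x) := by
        intro v
        rw [phi_some, Finset.sum_filter, Finset.sum_filter,
          ← Equiv.sum_comp (cyc hr p) (fun D => if x ∈ D.1 then v D else 0)]
        refine Finset.sum_congr rfl fun y _ => ?_
        rw [hval]
        have h3 : x ∈ Dset p y ↔ dp y x = 1 := ⟨fun h => h.2, fun h => ⟨⟨hx0, hxp⟩, h⟩⟩
        simp only [h3]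
      rw [h2, h2, h]
    · rw [Equiv.sum_comp (cyc hr p) w]
      rwa [Finsupp.sum_fintype _ _ (by simp)] at hw
  ext D
  have := congrFun key ((cyc hr p).symm D)
  simpa using this

theorem small_zero (K : Type u) [Field K] (hr : 3 ≤ r + 1) (p : V (r + 1)) (hp : p ≠ 0)
    (f : MvPolynomial {D : Set (V (r + 1)) // IsCycle (PGp p)✶ D} K)
    (hf : f ∈ cycleIdeal K (PGp p)✶) (hdeg : f.totalDegree < 2 ^ r) : f = 0 := by
  have h0 : aeval (fun D : {D : Set (V (r + 1)) // IsCycle (PGp p)✶ D} =>
    (X none * ∏ᶠ e ∈ D.1, X (some e) : MvPolynomial (Option (V (r + 1))) K)) f = 0 := hf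
  ext w
  rw [coeff_zero]
  by_cases hw : w ∈ f.support
  · have h1 := coeff_aeval K (fun D : {D : Set (V (r + 1)) // IsCycle (PGp p)✶ D} => D.1) f w (by
      intro w' hw' h
      exact phi_inj hr p hp w' w h (lt_of_le_of_lt (le_totalDegree hw') hdeg))
    rw [← h1, h0, coeff_zero]
  · rwa [notMem_support_iff] at hw

/-- the exponents of the two monomials of the binomial -/
noncomputable def wexp (hr : 3 ≤ r + 1) (p : V (r + 1)) (a : ZMod 2) :
    {D : Set (V (r + 1)) // IsCycle (PGp p)✶ D} →₀ ℕ :=
  let _ : Finite {D : Set (V (r + 1)) // IsCycle (PGp p)✶ D} := Finite.of_equiv _ (cyc hr p)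
  Finsupp.equivFunOnFinite.symm fun D => if dp ((cyc hr p).symm D) p = a then 1 else 0

theorem wexp_apply (hr : 3 ≤ r + 1) (p : V (r + 1)) (a : ZMod 2) (y : V (r + 1)) :
    wexp hr p a (cyc hr p y) = if dp y p = a then 1 else 0 := by
  simp [wexp]

theorem phi_wexp (hr : 3 ≤ r + 1) (p : V (r + 1)) (hp : p ≠ 0) :
    phi (fun D : {D : Set (V (r + 1)) // IsCycle (PGp p)✶ D} => D.1) (wexp hr p 0)
      = phi (fun D => D.1) (wexp hr p 1) := by
  classical
  let _ : Fintype {D : Set (V (r + 1)) // IsCycle (PGp p)✶ D} := Fintype.ofEquiv _ (cyc hr p)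
  have hval : ∀ y, ((cyc hr p) y).1 = Dset p y := fun y => rfl
  ext o
  cases o with
  | none =>
    rw [phi_none, phi_none, ← Equiv.sum_comp (cyc hr p), ← Equiv.sum_comp (cyc hr p)]
    simp_rw [wexp_apply]
    rw [Finset.sum_boole, Finset.sum_boole]
    obtain ⟨h1, h2⟩ := card_zero hp
    rw [h1, h2]
  | some x =>
    have h2 : ∀ a, phi (fun D : {D : Set (V (r + 1)) // IsCycle (PGp p)✶ D} => D.1)
        (wexp hr p a) (some x) = ∑ y, if x ∈ Dset p y ∧ dp y p = a then 1 else 0 := by
      intro a
      rw [phi_some, Finset.sum_filter,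
          ← Equiv.sum_comp (cyc hr p) (fun D => if x ∈ D.1 then wexp hr p a D else 0)]
      refine Finset.sum_congr rfl fun y _ => ?_
      rw [hval, wexp_apply]
      by_cases h3 : x ∈ Dset p y <;> simp [h3]
    rw [h2, h2]
    by_cases hx : x ∈ ground p
    · obtain ⟨z, -, -, hz1, hz2⟩ := exists_sep hr 0 p x hp hx.2.symm
      rw [dp_comm] at hz1 hz2
      rw [← Equiv.sum_comp (Equiv.addRight z)]
      refine Finset.sum_congr rfl fun y _ => ?_
      have h3 : (x ∈ Dset p (y + z) ∧ dp (y + z) p = 0) ↔ (x ∈ Dset p y ∧ dp y p = 1) := by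
        simp only [Dset, Set.mem_ofPred_eq, dp_add_left, hz1, hz2, add_zero]
        have : ∀ a : ZMod 2, a + 1 = 0 ↔ a = 1 := by decide
        rw [this]
      simp only [Equiv.coe_addRight, h3]
    · have h3 : ∀ y, x ∉ Dset p y := fun y h => hx h.1
      simp [h3]

theorem generators (K : Type u) [Field K] (hr : 3 ≤ r + 1) (p : V (r + 1)) (hp : p ≠ 0)
    (S : Set (MvPolynomial {D : Set (V (r + 1)) // IsCycle (PGp p)✶ D} K))
    (hS : Ideal.span S = cycleIdeal K (PGp p)✶) : ∃ f ∈ S, 2 ^ r ≤ f.totalDegree := by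
  by_contra hcon
  push Not at hcon
  have h0 : ∀ f ∈ S, f = 0 := by
    intro f hf
    exact small_zero K hr p hp f (by rw [← hS]; exact Ideal.subset_span hf) (hcon f hf)
  have h1 : cycleIdeal K (PGp p)✶ = ⊥ := by
    rw [← hS, Ideal.span_eq_bot]
    exact h0
  have h2 : (monomial (wexp hr p 0) 1 - monomial (wexp hr p 1) 1 :
      MvPolynomial {D : Set (V (r + 1)) // IsCycle (PGp p)✶ D} K) ∈ cycleIdeal K (PGp p)✶ := by
    change aeval (fun D : {D : Set (V (r + 1)) // IsCycle (PGp p)✶ D} =>
      (X none * ∏ᶠ e ∈ D.1, X (some e) : MvPolynomial (Option (V (r + 1))) K)) _ = 0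
    rw [map_sub, aeval_mono K (fun D : {D : Set (V (r + 1)) // IsCycle (PGp p)✶ D} => D.1),
      aeval_mono K (fun D : {D : Set (V (r + 1)) // IsCycle (PGp p)✶ D} => D.1),
      phi_wexp hr p hp, sub_self]
  rw [h1, Ideal.mem_bot, sub_eq_zero] at h2
  have h3 := congrArg (coeff (wexp hr p 0)) h2
  rw [coeff_monomial, coeff_monomial, if_pos rfl] at h3
  have h4 : wexp hr p 1 ≠ wexp hr p 0 := by
    intro h
    have := DFunLike.congr_fun h (cyc hr p 0)
    rw [wexp_apply, wexp_apply, dp_zero_left] at this
    simp at this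
  rw [if_neg h4] at h3
  exact one_ne_zero h3

/-! ### The matroid is binary, connected and cosimple -/

/-- the rows: the incidence vectors of the cocircuits -/
noncomputable def rowMap (p : V r) : V r →ₗ[ZMod 2] (V r → ZMod 2) where
  toFun y := (Set.indicator (ground p) fun x => dp y x)
  map_add' y z := by
    ext x
    by_cases hx : x ∈ ground p <;> simp [hx, dp_add_left]
  map_smul' c y := by
    ext x
    by_cases hx : x ∈ ground p
    · simp only [Set.indicator_of_mem hx, RingHom.id_apply, Pi.smul_apply, smul_eq_mul]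
      simp only [dp, Pi.smul_apply, smul_eq_mul, Finset.mul_sum]
      exact Finset.sum_congr rfl fun i _ => by ring
    · simp [Set.indicator_of_notMem hx]

theorem dual_rep (hr : 3 ≤ r) (p : V r) : Rep (ZMod 2) (PGp p)✶
    ((LinearMap.range (rowMap p)).mkQ ∘ fun x : V r => (Pi.single x (1 : ZMod 2) : V r → ZMod 2)) := by
  intro I hI
  have hI' : I ⊆ ground p := hI
  rw [Matroid.indep_iff_forall_subset_not_isCircuit (hI := hI), linearIndepOn_iff]
  have hlin : ∀ l : V r →₀ ZMod 2, Finsupp.linearCombination (ZMod 2)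
      ((LinearMap.range (rowMap p)).mkQ ∘ fun x : V r => (Pi.single x (1 : ZMod 2) : V r → ZMod 2)) l
      = (LinearMap.range (rowMap p)).mkQ (fun x => l x) := by
    intro l
    have h1 : (Finsupp.linearCombination (ZMod 2)
        (fun x : V r => (Pi.single x (1 : ZMod 2) : V r → ZMod 2)) l) = fun x => l x := by
      ext x
      rw [Finsupp.linearCombination_apply, Finsupp.sum_fintype _ _ (by simp), Finset.sum_apply,
        Finset.sum_eq_single x]
      · simp
      · intro b _ hb
        simp [Pi.single_eq_of_ne hb.symm]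
      · simp
    rw [← h1, LinearMap.map_finsupp_linearCombination]
  constructor
  · intro h l hl h0
    rw [hlin, Submodule.mkQ_apply, Submodule.Quotient.mk_eq_zero] at h0
    obtain ⟨y, hy⟩ := h0
    by_contra hne
    have hy0 : y ≠ 0 := by
      rintro rfl
      apply hne
      ext x
      rw [map_zero] at hy
      exact (congrFun hy x).symm
    apply h (Dset p y) _ ((isCircuit_iff hr p _).2 ⟨y, hy0, rfl⟩)
    intro x hx
    have h1 : l x = 1 := by
      have := congrFun hy x
      rw [← this]
      change Set.indicator (ground p) (fun x => dp y x) x = 1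
      rw [Set.indicator_of_mem hx.1, hx.2]
    rw [Finsupp.mem_supported] at hl
    apply hl
    simp [h1]
  · intro h C hCI hC
    obtain ⟨y, hy, rfl⟩ := (isCircuit_iff hr p C).1 hC
    obtain ⟨x0, hx0⟩ := Dset_nonempty hr p y hy
    have h1 := h (Finsupp.equivFunOnFinite.symm (rowMap p y)) (by
      rw [Finsupp.mem_supported]
      intro x hx
      apply hCI
      have h2 : rowMap p y x ≠ 0 := by simpa using hx
      have h3 : x ∈ ground p := by
        by_contra hn
        apply h2
        change Set.indicator (ground p) (fun x => dp y x) x = 0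
        rw [Set.indicator_of_notMem hn]
      refine ⟨h3, ?_⟩
      have h4 : rowMap p y x = dp y x := Set.indicator_of_mem h3 _
      rw [h4] at h2
      exact (zmod2 _).resolve_left h2) (by
      rw [hlin, Submodule.mkQ_apply, Submodule.Quotient.mk_eq_zero]
      exact ⟨y, rfl⟩)
    have h2 := DFunLike.congr_fun h1 x0
    have h3 : rowMap p y x0 = 0 := by simpa using h2
    have h4 : rowMap p y x0 = dp y x0 := Set.indicator_of_mem hx0.1 _
    rw [h4, hx0.2] at h3
    exact absurd h3 (by decide)

theorem dual_binary (hr : 3 ≤ r) (p : V r) : Representable (ZMod 2) (PGp p)✶ := by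
  let e := Module.finBasis (ZMod 2) ((V r → ZMod 2) ⧸ LinearMap.range (rowMap p))
  exact ⟨_, _, (dual_rep hr p).comp_injective e.equivFun.toLinearMap e.equivFun.injective⟩

theorem dual_connected (hr : 3 ≤ r) (p : V r) : IsConnected (PGp p)✶ := by
  intro e he f hf hef
  obtain ⟨y, hy0, -, h1, h2⟩ := exists_sep hr 0 e (e + f) he.1 (by
    intro h
    apply hf.1
    have : e + 0 = e + f := by rw [add_zero]; exact h
    exact (add_left_cancel this).symm)
  rw [dp_comm] at h1 h2
  rw [dp_add_right, h1] at h2
  have h3 : dp y f = 1 := by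
    rcases zmod2 (dp y f) with h | h
    · rw [h] at h2
      exact absurd h2 (by decide)
    · exact h
  exact ⟨Dset p y, (isCircuit_iff hr p _).2 ⟨y, hy0, rfl⟩, ⟨he, h1⟩, ⟨hf, h3⟩⟩

theorem PGp_simple (p : V r) : IsSimple (PGp p) := by
  intro e he f hf
  rw [PGp_rep p {e, f} (Set.insert_subset he (Set.singleton_subset_iff.2 hf))]
  by_cases hef : e = f
  · subst hef
    rw [Set.pair_eq_singleton, linearIndepOn_singleton_iff]
    exact he.1
  · rw [linearIndepOn_pair_iff id hef he.1]
    intro c
    rcases zmod2 c with rfl | rfl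
    · rw [zero_smul]
      exact fun h => hf.1 h.symm
    · rw [one_smul]
      exact hef

/-! ### No `M(K_5)*`-restricted minor -/

/-- the property of all restricted minors of the example -/
def Inv {α : Type} (N : Matroid α) : Prop :=
  ∃ (W : Type) (_ : AddCommGroup W) (_ : Module (ZMod 2) W) (v : α → W) (w₀ : W),
    Rep (ZMod 2) N✶ v ∧ ∀ w, w ≠ 0 → w ≠ w₀ → ∃ e ∈ N.E, v e = w

theorem inv_start (p : V r) : Inv (PGp p)✶ := by
  refine ⟨V r, inferInstance, inferInstance, id, p, ?_, ?_⟩
  · rw [Matroid.dual_dual]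
    exact PGp_rep p
  · intro w hw hwp
    exact ⟨w, ⟨hw, hwp⟩, rfl⟩

theorem rep_delete {α : Type} {W : Type} [AddCommGroup W] [Module (ZMod 2) W] {N : Matroid α}
    {v : α → W} (h : Rep (ZMod 2) N v) (X : Set α) : Rep (ZMod 2) (N.delete X) v := by
  intro I hI
  rw [Matroid.delete_indep_iff, h I (hI.trans Set.sdiff_subset), and_iff_left]
  rw [Set.disjoint_left]
  intro x hx hxX
  exact (hI hx).2 hxX

theorem inv_of {α : Type} {M N : Matroid α} (hM : Inv M) (h : IsRestrictedMinor M N) : Inv N := by
  induction h with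
  | refl => exact hM
  | @delete N e _ he ih =>
    obtain ⟨W, _, _, v, w₀, hrep, hcov⟩ := ih
    refine ⟨W ⧸ Submodule.span (ZMod 2) (v '' {e}), inferInstance, inferInstance,
      (Submodule.span (ZMod 2) (v '' {e})).mkQ ∘ v,
      (Submodule.span (ZMod 2) (v '' {e})).mkQ w₀, ?_, ?_⟩
    · rw [Matroid.dual_delete, ← Matroid.delete_empty (N✶.contract {e})]
      exact hrep.minor {e} ∅ (Set.singleton_subset_iff.2 he)
    · intro w hw hw0
      obtain ⟨w, rfl⟩ := Submodule.mkQ_surjective _ w
      obtain ⟨e', he', rfl⟩ := hcov w (fun h => hw (by rw [h, map_zero])) (fun h => hw0 (by rw [h]))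
      refine ⟨e', ⟨he', ?_⟩, rfl⟩
      rintro rfl
      apply hw
      rw [Submodule.mkQ_apply, Submodule.Quotient.mk_eq_zero]
      exact Submodule.subset_span ⟨_, rfl, rfl⟩
  | @seriesContract N e f _ hef hc ih =>
    obtain ⟨W, _, _, v, w₀, hrep, hcov⟩ := ih
    refine ⟨W, inferInstance, inferInstance, v, w₀, ?_, ?_⟩
    · rw [Matroid.dual_contract]
      exact rep_delete hrep _
    · intro w hw hw0
      obtain ⟨e', he', rfl⟩ := hcov w hw hw0
      by_cases h : e' = e
      · subst h
        have hcirc : N✶.IsCircuit {e', f} := hc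
        have hsubE := hcirc.subset_ground
        have hf : f ∈ N✶.E := hsubE (by simp)
        have h1 : ¬ LinearIndepOn (ZMod 2) v {e', f} := by
          rw [← hrep _ hsubE]
          exact hcirc.not_indep
        have h2 : v f ≠ 0 := by
          have h3 : N✶.Indep {f} := by
            apply hcirc.ssubset_indep
            rw [Set.ssubset_iff_subset_ne]
            refine ⟨by simp, fun h => hef ?_⟩
            have : e' ∈ ({f} : Set α) := by rw [h]; simp
            simpa using this
          rw [hrep _ (Set.singleton_subset_iff.2 hf), linearIndepOn_singleton_iff] at h3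
          exact h3
        rw [linearIndepOn_pair_iff v hef hw] at h1
        push Not at h1
        obtain ⟨c, hc'⟩ := h1
        refine ⟨f, ⟨hf, fun h => hef (by simpa using h.symm)⟩, ?_⟩
        rcases zmod2 c with rfl | rfl
        · rw [zero_smul] at hc'
          exact absurd hc'.symm h2
        · rw [one_smul] at hc'
          exact hc'.symm
      · exact ⟨e', ⟨he', h⟩, rfl⟩
  | @coloopContract N e _ hc ih =>
    obtain ⟨W, _, _, v, w₀, hrep, hcov⟩ := ih
    refine ⟨W, inferInstance, inferInstance, v, w₀, ?_, ?_⟩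
    · rw [Matroid.dual_contract]
      exact rep_delete hrep _
    · intro w hw hw0
      obtain ⟨e', he', rfl⟩ := hcov w hw hw0
      refine ⟨e', ⟨he', ?_⟩, rfl⟩
      rintro rfl
      have hl : N✶.IsLoop e' := hc
      apply hw
      by_contra hne
      have h3 : N✶.Indep {e'} := by
        rw [hrep _ (Set.singleton_subset_iff.2 he'), linearIndepOn_singleton_iff]
        exact hne
      rw [Matroid.indep_singleton] at h3
      exact h3.not_isLoop hl

theorem not_inv_K5 {α : Type} [Finite α] {N : Matroid α} (hN : Inv N)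
    {K : Matroid (Sym2 (Fin 5))} (hK : IsCompleteGraphMatroid 5 K) (hiso : Iso N K✶) : False := by
  classical
  obtain ⟨W, _, _, v, w₀, hrep, hcov⟩ := hN
  obtain ⟨e, he⟩ := hiso
  -- the size of the ground set
  have hE : K✶.E = (⊤ : SimpleGraph (Fin 5)).edgeSet := hK.1
  have hcardE : N.E.ncard = 10 := by
    rw [← Nat.card_coe_set_eq, Nat.card_congr e, hE, Nat.card_eq_fintype_card,
      ← SimpleGraph.edgeFinset_card, SimpleGraph.card_edgeFinset_top_eq_card_choose_two,
      Fintype.card_fin]
    rfl
  -- the size of the space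
  have hsub : (Set.univ : Set W) ⊆ {0, w₀} ∪ v '' N.E := by
    intro w _
    by_cases h0 : w = 0
    · left; left; exact h0
    · by_cases h1 : w = w₀
      · left; right; exact h1
      · obtain ⟨x, hx, rfl⟩ := hcov w h0 h1
        right
        exact ⟨x, hx, rfl⟩
  have hNfin : N.E.Finite := Set.toFinite _
  have hfin : (Set.univ : Set W).Finite :=
    ((Set.toFinite {0, w₀}).union (hNfin.image v)).subset hsub
  have hWfin : Finite W := Set.finite_univ_iff.1 hfin
  have hcardW : Nat.card W ≤ 12 := by
    rw [← Set.ncard_univ]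
    calc (Set.univ : Set W).ncard ≤ ({0, w₀} ∪ v '' N.E).ncard :=
          Set.ncard_le_ncard hsub ((Set.toFinite {0, w₀}).union (hNfin.image v))
      _ ≤ ({0, w₀} : Set W).ncard + (v '' N.E).ncard := Set.ncard_union_le _ _
      _ ≤ 2 + 10 := by
          apply add_le_add
          · exact Set.ncard_insert_le _ _ |>.trans (by simp)
          · exact (Set.ncard_image_le hNfin).trans hcardE.le
  -- an independent set with four elements
  have hmem : ∀ i : Fin 4, s((0 : Fin 5), i.succ) ∈ K✶.E := by
    intro i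
    rw [hE]
    simp [Fin.succ_ne_zero, eq_comm]
  let g : Fin 4 → α := fun i => (e.symm ⟨s(0, i.succ), hmem i⟩).1
  have hginj : Function.Injective g := by
    intro i j hij
    have h1 := e.symm.injective (Subtype.ext hij)
    have h2 : s((0 : Fin 5), i.succ) = s((0 : Fin 5), j.succ) := congrArg Subtype.val h1
    rw [Sym2.eq_iff] at h2
    rcases h2 with ⟨-, h2⟩ | ⟨h2, -⟩
    · exact Fin.succ_injective _ h2
    · exact absurd h2 (Fin.succ_ne_zero j).symm
  let T : Set (Sym2 (Fin 5)) := Set.range fun i : Fin 4 => s((0 : Fin 5), i.succ)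
  have hTE : T ⊆ (⊤ : SimpleGraph (Fin 5)).edgeSet := by
    rintro _ ⟨i, rfl⟩
    have := hmem i
    rwa [hE] at this
  have hT : K.Indep T := by
    rw [hK.2 T (hK.1 ▸ hTE), acyclic_iff (F := ZMod 2) T hTE]
    have hinj : Function.Injective fun i : Fin 4 => s((0 : Fin 5), i.succ) := by
      intro i j h2
      simp only at h2
      rw [Sym2.eq_iff] at h2
      rcases h2 with ⟨-, h2⟩ | ⟨h2, -⟩
      · exact Fin.succ_injective _ h2
      · exact absurd h2 (Fin.succ_ne_zero j).symm
    rw [linearIndepOn_range_iff hinj]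
    have h1 : (diffVec (Helper236.std (ZMod 2) 5) ∘ fun i : Fin 4 => s((0 : Fin 5), i.succ))
        = fun i => Pi.single 0 1 + Pi.single i.succ 1 := by
      funext i
      have h2 : ∀ a b : Fin 5 → ZMod 2, a - b = a + b := by
        intro a b
        ext i
        have : ∀ a b : ZMod 2, a - b = a + b := by decide
        exact this _ _
      rcases diffVec_mk (Helper236.std (ZMod 2) 5) 0 i.succ with h | h
      · rw [Function.comp_apply, h, h2]
        rfl
      · rw [Function.comp_apply, h, h2, add_comm]
        rfl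
    rw [h1, Fintype.linearIndependent_iff]
    intro c hc i
    have h3 := congrFun hc i.succ
    rw [Finset.sum_apply, Finset.sum_eq_single i] at h3
    · simpa [Pi.single_eq_of_ne (Fin.succ_ne_zero i)] using h3
    · intro j _ hj
      have : i.succ ≠ j.succ := fun h => hj (Fin.succ_injective _ h).symm
      simp [Pi.single_eq_of_ne this]
    · simp
  obtain ⟨B, hB, hTB⟩ := hT.exists_isBase_superset
  have hB' : K✶.IsBase (K.E \ B) := hB.compl_isBase_dual
  let J₀ : Set N.E := {x | (e x).1 ∉ B}
  have him : ((↑) '' (e '' J₀) : Set (Sym2 (Fin 5))) = K.E \ B := by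
    ext x
    constructor
    · rintro ⟨_, ⟨y, hy, rfl⟩, rfl⟩
      exact ⟨(e y).2, hy⟩
    · rintro ⟨hx, hxB⟩
      refine ⟨⟨x, hx⟩, ⟨e.symm ⟨x, hx⟩, ?_, e.apply_symm_apply ⟨x, hx⟩⟩, rfl⟩
      change (e (e.symm ⟨x, hx⟩)).1 ∉ B
      rw [Equiv.apply_symm_apply]
      exact hxB
  have hJ₀ : N.Indep ((↑) '' J₀) := by
    rw [he, him]
    exact hB'.indep
  obtain ⟨J, hJ, hJsub⟩ := hJ₀.exists_isBase_superset
  have hX : N✶.IsBase (N.E \ J) := hJ.compl_isBase_dual
  have hJ1 : ∀ x : N.E, x.1 ∈ J → (e x).1 ∉ B := by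
    let J₁ : Set N.E := {x | x.1 ∈ J}
    have h1 : ((↑) '' J₁ : Set α) = J := by
      ext x
      constructor
      · rintro ⟨y, hy, rfl⟩
        exact hy
      · intro hx
        exact ⟨⟨x, hJ.subset_ground hx⟩, hx, rfl⟩
    have h2 : K✶.Indep ((↑) '' (e '' J₁)) := by
      rw [← he, h1]
      exact hJ.indep
    have h3 : K.E \ B ⊆ ((↑) '' (e '' J₁) : Set (Sym2 (Fin 5))) := by
      rw [← him]
      apply Set.image_mono
      apply Set.image_mono
      intro x hx
      exact hJsub ⟨x, hx, rfl⟩
    have h4 := hB'.eq_of_subset_indep h2 h3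
    intro x hx
    have h5 : (e x).1 ∈ K.E \ B := by
      rw [h4]
      exact ⟨e x, ⟨x, hx, rfl⟩, rfl⟩
    exact h5.2
  have hgX : Set.range g ⊆ N.E \ J := by
    rintro _ ⟨i, rfl⟩
    refine ⟨(e.symm ⟨s(0, i.succ), hmem i⟩).2, fun hx => ?_⟩
    have := hJ1 (e.symm ⟨s(0, i.succ), hmem i⟩) hx
    rw [Equiv.apply_symm_apply] at this
    exact this (hTB ⟨i, rfl⟩)
  have hlin : LinearIndepOn (ZMod 2) v (Set.range g) :=
    ((hrep _ hX.subset_ground).1 hX.indep).mono hgX
  rw [linearIndepOn_range_iff hginj] at hlin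
  have hmf : Module.Finite (ZMod 2) W := Module.Finite.of_finite
  have h4 := hlin.fintype_card_le_finrank
  rw [Fintype.card_fin] at h4
  let _ : Fintype W := Fintype.ofFinite W
  have h5 := Module.card_eq_pow_finrank (K := ZMod 2) (V := W)
  rw [← Nat.card_eq_fintype_card, ZMod.card] at h5
  have h6 : 2 ^ 4 ≤ 2 ^ Module.finrank (ZMod 2) W := Nat.pow_le_pow_right (by norm_num) h4
  omega

/-- For every `d` there is a connected binary matroid `M`, with simple dual, without an
`M(K_5)*`-restricted minor such that over every field every generating set of the cycle ideal of `M`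
contains a polynomial of total degree greater than `d`. -/
theorem result : ∀ d : ℕ, ∃ (α : Type) (M : Matroid α), M.Finite ∧ Representable (ZMod 2) M ∧
    IsConnected M ∧ IsSimple M✶ ∧ ¬ HasK5DualRestrictedMinor M ∧
    ∀ (K : Type u) [Field K] (S : Set (MvPolynomial {D : Set α // IsCycle M D} K)),
      Ideal.span S = cycleIdeal K M → ∃ f ∈ S, d < f.totalDegree := by
  intro d
  have hr : 3 ≤ (d + 2) + 1 := by omega
  have hp : (fun _ => 1 : V ((d + 2) + 1)) ≠ 0 := by
    intro h
    have h1 : (1 : ZMod 2) = 0 := congrFun h 0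
    exact one_ne_zero h1
  refine ⟨V ((d + 2) + 1), (PGp (fun _ => 1))✶, ⟨Set.toFinite _⟩, dual_binary hr _,
    dual_connected hr _, ?_, ?_, ?_⟩
  · rw [Matroid.dual_dual]
    exact PGp_simple _
  · rintro ⟨N, hN, K, hK, hiso⟩
    exact not_inv_K5 (inv_of (inv_start _) hN) hK hiso
  · intro K _ S hS
    obtain ⟨f, hf, hdeg⟩ := generators K hr _ hp S hS
    refine ⟨f, hf, lt_of_lt_of_le ?_ hdeg⟩
    have : d + 2 < 2 ^ (d + 2) := Nat.lt_two_pow_self
    omega

end Pool.Agent.Results.MP_1f7bca_co.UnboundedDegree
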